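import Pool.Agent.Lib.HgtLI.Gsm
import Pool.Agent.Lib.HgtLI.IndN
import Pool.Agent.Lib.InjLI.Ker

/-!
# ColH : the theorem for finite systems

(helper62, problem MP_cf50d6_gt; as `Lib/InjLI/ColA.lean` by helper18)
-/

set_option autoImplicit false

open scoped Classical

namespace Pool.Agent.InjLI

open Pool.Agent.LIA

universe u v w'

namespace OW

variable {X : Type u} {I E : Type} (P : OW X I E) {L : Type*} [Group L]

theorem acy_of {W : Type*} {R : Set (FreeGroup X)} {Γ : LG W X} (h : P.Acyc R Γ) :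
    Γ.Acy (P.relw R) := by
  intro c hc
  refine h c (fun ρ hρ v hv => hc v (Sum.inl ⟨ρ, hρ⟩) hv) (fun e q hq => ?_)
  have h1 := hc (q 0) (Sum.inr e) ((walk_ofFn (P.a e) (q 0)).2 ⟨q, rfl, hq⟩)
  exact (trSum_ofFn (P.a e) c hq).symm.trans h1

private theorem colH_mk_toWord {S : Type*} (inst : DecidableEq S) (x : FreeGroup S) :
    FreeGroup.mk (@FreeGroup.toWord S inst x) = x := @FreeGroup.mk_toWord S inst x

private theorem lift_blk {Q : Type*} [Group Q] (f : X → Q) (η : X → L) (χ : Q →* L)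
    (b : I) (hη : ∀ x, P.cl x = b → χ (f x) = η x) : ∀ l : List (X × Bool),
    (∀ t ∈ l, P.cl t.1 = b) →
      FreeGroup.lift η (FreeGroup.mk l) = χ (FreeGroup.lift f (FreeGroup.mk l)) := by
  intro l
  induction l with
  | nil => intro _; rw [← FreeGroup.one_eq_mk, map_one, map_one, map_one]
  | cons t l ih =>
    intro h
    rw [mk_cons, map_mul, map_mul, map_mul, ih fun t' ht' => h t' (List.mem_cons_of_mem _ ht')]
    congr 1
    obtain ⟨x, c⟩ := t
    have hx : P.cl x = b := h _ List.mem_cons_self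
    cases c
    · rw [lv_false, map_inv, map_inv, map_inv, FreeGroup.lift_apply_of,
        FreeGroup.lift_apply_of, hη x hx]
    · rw [lv_true, FreeGroup.lift_apply_of, FreeGroup.lift_apply_of, hη x hx]

theorem exists_height {W : Type*} [Fintype W] {Q : I → Type v} [∀ b, Group (Q b)]
    {f : ∀ b, X → Q b} (hL : LocallyIndicable L) {η : X → L} (χ : ∀ b, Q b →* L)
    (hη : ∀ x, χ (P.cl x) (f (P.cl x) x) = η x)
    (hr : ∀ e, FreeGroup.lift η (FreeGroup.mk (List.ofFn (P.a e))) = 1) {Γ : LG W X}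
    (hA : P.Acyc (P.inn f) Γ) : ∃ θ : W → L, ∀ p x q, (p, x, q) ∈ Γ.F → θ q = θ p * η x := by
  refine LG.acy_pot hL Γ (P.acy_of hA) (fun e => η e.2.1) fun v z hz => ?_
  have h1 := wv_label η hz
  have h2 : FreeGroup.lift η (FreeGroup.mk (P.relw (P.inn f) z)) = 1 := by
    rcases z with ρ | e
    · obtain ⟨ρ, b, hb1, hb2⟩ := ρ
      change FreeGroup.lift η (FreeGroup.mk ρ.toWord) = 1
      rw [P.lift_blk (f b) η (χ b) b (by
        rintro x rfl
        exact hη x) ρ.toWord hb1, colH_mk_toWord, hb2, map_one]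
    · exact hr e
  rw [h2] at h1
  exact h1

theorem noEssH [Fintype I] [Fintype E] {Q : I → Type v} [∀ b, Group (Q b)]
    (hQ : ∀ b, LocallyIndicable (Q b)) {f : ∀ b, X → Q b} (hL : LocallyIndicable L) {η : X → L}
    (χ : ∀ b, Q b →* L) (hη : ∀ x, χ (P.cl x) (f (P.cl x) x) = η x)
    (hr : ∀ e, FreeGroup.lift η (FreeGroup.mk (List.ofFn (P.a e))) = 1)
    (hCv : ∀ S : Finset L, ∃ (O : Type) (_ : Fintype O) (s : O → X → L → Bool)
      (w : P.Cor → L → ℝ) (α : I → O → L → ℝ) (lam : X → L → ℝ), P.CvH f η S s w α lam) :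
    P.NoEss f := by
  intro W _ _ Γ hC hA hR
  obtain ⟨θ, hθ⟩ := P.exists_height hL χ hη hr hA
  obtain ⟨O, _, s, w, α, lam, h⟩ := hCv (Finset.univ.image θ)
  exact P.not_essH hQ h hθ (fun p => Finset.mem_image_of_mem _ (Finset.mem_univ p)) hC hA hR

end OW

private theorem colH_toWord {S : Type*} (inst : DecidableEq S) (x : S) :
    @FreeGroup.toWord S inst (FreeGroup.of x) = [(x, true)] := @FreeGroup.toWord_of S inst x

theorem colH_lift {I E : Type} {H : I → Type u} [∀ b, Group (H b)] {m : E → ℕ}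
    (a : ∀ e, Fin (m e + 1) → (Σ b, H b) × Bool) {G : Type*} [Group G] (θ : ∀ b, H b →* G)
    (e : E) : Monoid.CoprodI.lift θ (relA a e) =
      FreeGroup.lift (fun x : Σ b, H b => θ x.1 x.2) (FreeGroup.mk (List.ofFn (a e))) := by
  rw [relA, map_list_prod, List.map_ofFn, FreeGroup.lift_mk, List.map_ofFn]
  congr 2
  funext c
  simp only [Function.comp_apply, sg]
  cases (a e c).2
  · simp
  · simp

theorem colN {I E : Type} [Fintype I] [Fintype E] {H : I → Type u} [∀ b, Group (H b)]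
    (hH : ∀ b, LocallyIndicable (H b)) {m : E → ℕ}
    {a : ∀ e, Fin (m e + 1) → (Σ b, H b) × Bool}
    (alt : ∀ e c, (a e c).1.1 ≠ (a e (c + 1)).1.1)
    (hne : (OW.mk Sigma.fst m a alt).NoEss fv) {G : Type u} [Group G] {θ : ∀ b, H b →* G}
    (hcol : IsCol H (relA a) G θ) :
    LocallyIndicable G ∧ ∀ b, Function.Injective (θ b) := by
  have hbase := OW.baseN (OW.mk Sigma.fst m a alt) hH (f := fv) hne
    (g := fun x : Σ b, H b => θ x.1 x.2) θ
    (fun x => by
      change θ x.1 (fv x.1 x) = θ x.1 x.2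
      have : fv x.1 x = x.2 := fv_self x.1 x.2
      rw [this])
    (fun e => by
      rw [← colH_lift a θ e]
      exact hcol.rel e)
    (by
      rw [← MonoidHom.range_eq_top, eq_top_iff, ← hcol.gen, iSup_le_iff]
      rintro b _ ⟨x, rfl⟩
      exact ⟨FreeGroup.of ⟨b, x⟩, FreeGroup.lift_apply_of⟩)
    (ker_le alt hcol)
  refine ⟨hbase.1, fun b => ?_⟩
  rw [injective_iff_map_eq_one]
  intro h h1
  have h2 := hbase.2 b (FreeGroup.of ⟨b, h⟩) (by
    intro t ht
    rw [colH_toWord, List.mem_singleton] at ht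
    rw [ht])
    (by rw [FreeGroup.lift_apply_of]; exact h1)
  rw [FreeGroup.lift_apply_of, fv_self] at h2
  exact h2

/-- the theorem for finitely many groups and words -/
theorem colH {I E : Type} [Fintype I] [Fintype E] {H : I → Type u} [∀ b, Group (H b)]
    (hH : ∀ b, LocallyIndicable (H b)) {m : E → ℕ}
    {a : ∀ e, Fin (m e + 1) → (Σ b, H b) × Bool}
    (alt : ∀ e c, (a e c).1.1 ≠ (a e (c + 1)).1.1) {L : Type w'} [Group L]
    (hL : LocallyIndicable L) (χ : ∀ b, H b →* L)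
    (hχ : ∀ e, Monoid.CoprodI.lift χ (relA a e) = 1)
    (hCv : ∀ S : Finset L, ∃ (O : Type) (_ : Fintype O) (s : O → (Σ b, H b) → L → Bool)
      (w : (Σ e : E, Fin (m e + 1)) → L → ℝ) (α : I → O → L → ℝ) (lam : (Σ b, H b) → L → ℝ),
      (OW.mk Sigma.fst m a alt).CvH fv (fun x => χ x.1 x.2) S s w α lam)
    {G : Type u} [Group G] {θ : ∀ b, H b →* G} (hcol : IsCol H (relA a) G θ) :
    LocallyIndicable G ∧ ∀ b, Function.Injective (θ b) := by
  refine colN hH alt ?_ hcol
  refine OW.noEssH _ hH hL χ (η := fun x => χ x.1 x.2) (fun x => ?_) (fun e => ?_) hCv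
  · change χ x.1 (fv x.1 x) = χ x.1 x.2
    have : fv x.1 x = x.2 := fv_self x.1 x.2
    rw [this]
  · rw [← colH_lift a χ e]
    exact hχ e

end Pool.Agent.InjLI
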