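import Pool.Agent.Lib.InjLI.Defs4

/-!
# Relative curvature with heights : definitions

(helper62, problem MP_cf50d6_gt; continues `Lib/InjLI` by helper18)

`L` is a locally indicable group, the letter `x` goes up by `η x`. Weights, signs and transfers may depend on the height.
-/

set_option autoImplicit false

open scoped Classical

namespace Pool.Agent.InjLI

open Pool.Agent.LIA

universe u v

/-- the height of the initial end of the letter with the end `ε` at the height `g`: `(x, true)` is the initial end of the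
letter `x`, `(x, false)` its terminal end -/
def hl {X L : Type*} [Group L] (η : X → L) (ε : X × Bool) (g : L) : L :=
  if ε.2 then g else g * (η ε.1)⁻¹

/-- the sign of the end -/
def sgn {X : Type*} (ε : X × Bool) : ℝ := if ε.2 then 1 else -1

namespace OW

variable {X : Type u} {I E : Type} {W : Type*} (P : OW X I E) {L : Type*} [Group L]

/-- `h` gives heights of the corners of the word `e` -/
def Ht (η : X → L) (e : E) (h : Fin (P.m e + 1) → L) : Prop :=
  ∀ c, h (c + 1) = h c * sg (η (P.a e c).1) (P.a e c).2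

/-- if the corner `κ` is at the height `g` then the corners of its word have heights in `S` -/
def Fit (η : X → L) (S : Finset L) (κ : P.Cor) (g : L) : Prop :=
  ∃ h, P.Ht η κ.1 h ∧ h κ.2 = g ∧ ∀ c, h c ∈ S

/-- the two ends of letters at the corner -/
noncomputable def ends (κ : P.Cor) : Finset (X × Bool) := {P.nxt κ, ((P.prv κ).1, !(P.prv κ).2)}

/-- the ends of letters at the corners in `K` -/
noncomputable def endK (K : Finset P.Cor) : Finset (X × Bool) := K.biUnion P.ends

/-- there is an up end of the block `b` for the signs `s` of the letters at the heights of their initial ends -/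
def UpH (η : X → L) (K : Finset P.Cor) (b : I) (s : X → L → Bool) (g : L) : Prop :=
  ∃ ε ∈ P.endK K, P.cl ε.1 = b ∧ s ε.1 (hl η ε g) = ε.2

/-- an up step of the block `b` -/
def USt {Q : I → Type v} [∀ b, Group (Q b)] (f : ∀ b, X → Q b) (η : X → L) (S : Finset L)
    (b : I) (s : X → L → Bool) (u v : L × Q b) : Prop :=
  u.1 ∈ S ∧ v.1 ∈ S ∧ ∃ e c, P.cl (P.a e c).1 = b ∧
    ((s (P.a e c).1 u.1 = true ∧ v = (u.1 * η (P.a e c).1, u.2 * f b (P.a e c).1)) ∨
      (s (P.a e c).1 v.1 = false ∧ u = (v.1 * η (P.a e c).1, v.2 * f b (P.a e c).1)))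

/-- the curvature condition with heights in `S` -/
structure CvH {O : Type} [Fintype I] [Fintype O] {Q : I → Type v} [∀ b, Group (Q b)]
    (f : ∀ b, X → Q b) (η : X → L) (S : Finset L) (s : O → X → L → Bool) (w : P.Cor → L → ℝ)
    (α : I → O → L → ℝ) (lam : X → L → ℝ) : Prop where
  nonneg : ∀ b o g, 0 ≤ α b o g
  le_one : ∀ b g, ∑ o, α b o g ≤ 1
  inv : ∀ b o g x, P.cl x = b → α b o (g * η x) = α b o g
  pos : ∀ b o (u : L × Q b), α b o u.1 ≠ 0 → ¬ Relation.TransGen (P.USt f η S b (s o)) u u
  wt : ∀ e h, P.Ht η e h → (∀ c, h c ∈ S) → 1 ≤ ∑ c, w ⟨e, c⟩ (h c)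
  curv : ∀ g ∈ S, ∀ K : Finset P.Cor, P.TwoConn K → (∀ κ ∈ K, P.Fit η S κ g) →
    ∑ κ ∈ K, w κ g + 1 ≤ (∑ b, ∑ o, if P.UpH η K b (s o) g then α b o g else 0) +
      ∑ ε ∈ P.endK K, sgn ε * lam ε.1 (hl η ε g)

end OW

end Pool.Agent.InjLI
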