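import Pool.Agent.Lib.HgtLI.Top
import Pool.Agent.Lib.InjLI.KOne
import Pool.Agent.Lib.InjLI.KThr

/-!
# Gsm : the good components and the vertices without up ends

(helper62, problem MP_cf50d6_gt; as `Lib/InjLI/Gd.lean`, `Loc.lean` by helper18)
-/

set_option autoImplicit false

open scoped Classical

namespace Pool.Agent.InjLI

open Pool.Agent.LIA

universe u v

namespace OW

variable {X : Type u} {I E : Type} {W : Type*} (P : OW X I E) {L : Type*} [Group L]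

theorem exists_cond [Fintype I] [Fintype E] [Fintype W] {Γ : LG W X} (hC : Cn Γ)
    (hE : ∃ p, P.Ess Γ p) {b : I} {C : Finset W} (hCc : C ∈ (P.bg Γ b).comps) :
    ∃ p ∈ C, b ∉ P.Jp Γ p ∨ P.Ess Γ p := by
  by_contra hno
  push Not at hno
  obtain ⟨p0, hp0⟩ := LG.nonempty_of_mem_comps hCc
  have hall : ∀ p ∈ C, ∀ c ∈ P.Jp Γ p, c = b := by
    intro p hp c hc
    have h1 := (hno p hp).2
    unfold Ess at h1
    push Not at h1
    exact Finset.card_le_one.1 (Nat.lt_succ_iff.1 h1) c hc b (hno p hp).1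
  have hcl : ∀ u x v, (u, x, v) ∈ Γ.F → (u ∈ (C : Set W) ↔ v ∈ (C : Set W)) := by
    intro u x v h
    have hu : P.cl x ∈ P.Jp Γ u := P.mem_jp.2 ⟨u, x, v, h, rfl, Or.inl rfl⟩
    have hv : P.cl x ∈ P.Jp Γ v := P.mem_jp.2 ⟨u, x, v, h, rfl, Or.inr rfl⟩
    constructor
    · intro huC
      have h1 := hall u huC _ hu
      exact (LG.mem_of_edge hCc (P.mem_bg.2 ⟨h, h1⟩)).1 huC
    · intro hvC
      have h1 := hall v hvC _ hv
      exact (LG.mem_of_edge hCc (P.mem_bg.2 ⟨h, h1⟩)).2 hvC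
  obtain ⟨pe, hpe⟩ := hE
  exact (hno pe (hC (C : Set W) ⟨p0, hp0⟩ hcl pe)).2 hpe

/-- a function which is invariant along the edges of the block `b` is constant on the components -/
theorem comp_const [Fintype W] {Γ : LG W X} {b : I} {β : W → ℝ}
    (hβ : ∀ u x v, (u, x, v) ∈ Γ.F → P.cl x = b → β v = β u) {C : Finset W}
    (hCc : C ∈ (P.bg Γ b).comps) {p q : W} (hp : p ∈ C) (hq : q ∈ C) : β q = β p := by
  have h1 := LG.eq_comp_of_mem hCc hp
  rw [h1, LG.mem_comp] at hq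
  refine LG.Conn.induction (p := fun x => β x = β p) rfl ?_ hq
  rintro a ⟨x, t⟩ c ha hac
  cases t
  · rw [LG.step_false] at hac
    obtain ⟨h2, h3⟩ := P.mem_bg.1 hac
    rw [← ha, hβ _ _ _ h2 h3]
  · rw [LG.step_true] at hac
    obtain ⟨h2, h3⟩ := P.mem_bg.1 hac
    rw [← ha, hβ _ _ _ h2 h3]

/-- the contribution of the vertex `p` -/
noncomputable def Tb [Fintype I] [Fintype E] {O : Type} [Fintype O] (Γ : LG W X) (η : X → L)
    (θ : W → L) (s : O → X → L → Bool) (α : I → O → L → ℝ) (b : I) (p : W) : ℝ :=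
  if b ∉ P.Jp Γ p ∨ P.Ess Γ p then
    1 - ∑ o, if P.UpH η (P.cor Γ p) b (s o) (θ p) then α b o (θ p) else 0
  else 0

theorem tb_nonneg [Fintype I] [Fintype E] {O : Type} [Fintype O] {Γ : LG W X} {η : X → L}
    {θ : W → L} {s : O → X → L → Bool} {α : I → O → L → ℝ} (h0 : ∀ b o g, 0 ≤ α b o g)
    (h1 : ∀ b g, ∑ o, α b o g ≤ 1) (b : I) (p : W) : 0 ≤ P.Tb Γ η θ s α b p := by
  unfold Tb
  split_ifs
  · have h2 : (∑ o, if P.UpH η (P.cor Γ p) b (s o) (θ p) then α b o (θ p) else 0) ≤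
        ∑ o, α b o (θ p) := by
      refine Finset.sum_le_sum fun o _ => ?_
      split_ifs
      · exact le_rfl
      · exact h0 _ _ _
    linarith [h1 b (θ p)]
  · exact le_rfl

theorem one_le_tb [Fintype I] [Fintype E] [Fintype W] {Q : I → Type v} [∀ b, Group (Q b)]
    {f : ∀ b, X → Q b} {Γ : LG W X} (hC : Cn Γ) (hR : P.Rdc Γ) (hE : ∃ p, P.Ess Γ p) {η : X → L}
    {θ : W → L} (hθ : ∀ p x q, (p, x, q) ∈ Γ.F → θ q = θ p * η x) {S : Finset L}
    (hS : ∀ p, θ p ∈ S) {O : Type} [Fintype O] {s : O → X → L → Bool} {w : P.Cor → L → ℝ}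
    {α : I → O → L → ℝ} {lam : X → L → ℝ} (hCv : P.CvH f η S s w α lam) {b : I} {C : Finset W}
    (hCc : C ∈ (P.bg Γ b).comps) (hpot : (P.bg Γ b).PotIn (f b) C) :
    1 ≤ ∑ p ∈ C, P.Tb Γ η θ s α b p := by
  obtain ⟨p0, hp0, hcond⟩ := P.exists_cond hC hE hCc
  have hconst : ∀ o, ∀ p ∈ C, α b o (θ p) = α b o (θ p0) := fun o p hp =>
    P.comp_const (β := fun p => α b o (θ p)) (fun u x v h hx => by
      change α b o (θ v) = α b o (θ u)
      rw [hθ _ _ _ h, hCv.inv b o _ x hx]) hCc hp0 hp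
  set A : Finset W := C.filter fun p => b ∉ P.Jp Γ p ∨ P.Ess Γ p with hA
  have hA1 : 1 ≤ A.card := Finset.card_pos.2 ⟨p0, Finset.mem_filter.2 ⟨hp0, hcond⟩⟩
  have hA1' : (1 : ℝ) ≤ (A.card : ℝ) := by exact_mod_cast hA1
  have h1 : ∑ p ∈ C, P.Tb Γ η θ s α b p = ∑ p ∈ A,
      (1 - ∑ o, if P.UpH η (P.cor Γ p) b (s o) (θ p) then α b o (θ p) else 0) := by
    rw [hA, Finset.sum_filter]
    rfl
  have h2 : ∑ p ∈ A,
      (1 - ∑ o, if P.UpH η (P.cor Γ p) b (s o) (θ p) then α b o (θ p) else 0) =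
      (A.card : ℝ) - ∑ o, ∑ p ∈ A,
        if P.UpH η (P.cor Γ p) b (s o) (θ p) then α b o (θ p) else 0 := by
    rw [Finset.sum_sub_distrib, Finset.sum_comm]
    simp
  have h3 : ∀ o, (∑ p ∈ A, if P.UpH η (P.cor Γ p) b (s o) (θ p) then α b o (θ p) else 0) ≤
      α b o (θ p0) * ((A.card : ℝ) - 1) := by
    intro o
    have h4 : (∑ p ∈ A, if P.UpH η (P.cor Γ p) b (s o) (θ p) then α b o (θ p) else 0) =
        α b o (θ p0) * ((A.filter fun p => P.UpH η (P.cor Γ p) b (s o) (θ p)).card : ℝ) := by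
      rw [← Finset.sum_filter, Finset.sum_congr rfl (g := fun _ => α b o (θ p0))
        (fun p hp => hconst o p (Finset.mem_filter.1 (Finset.mem_filter.1 hp).1).1),
        Finset.sum_const, nsmul_eq_mul, mul_comm]
    rw [h4]
    by_cases h0 : α b o (θ p0) = 0
    · rw [h0]
      simp
    refine mul_le_mul_of_nonneg_left ?_ (hCv.nonneg _ _ _)
    obtain ⟨p, hp, hp1, hp2⟩ := P.exists_topH (s := s o) hC hR hE hθ hS hCc hpot (by
      rintro u ⟨q, hq, hqu⟩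
      refine hCv.pos b o u ?_
      rw [← hqu, hconst o q hq]
      exact h0)
    have h5 : (A.filter fun p => P.UpH η (P.cor Γ p) b (s o) (θ p)) ⊂ A := by
      rw [Finset.ssubset_iff_subset_ne]
      refine ⟨Finset.filter_subset _ _, fun h6 => ?_⟩
      have h7 : p ∈ A := Finset.mem_filter.2 ⟨hp, hp1⟩
      rw [← h6] at h7
      exact hp2 (Finset.mem_filter.1 h7).2
    have h8 := Finset.card_lt_card h5
    have h9 : (A.filter fun p => P.UpH η (P.cor Γ p) b (s o) (θ p)).card + 1 ≤ A.card := h8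
    have h10 : (((A.filter fun p => P.UpH η (P.cor Γ p) b (s o) (θ p)).card : ℝ)) + 1 ≤
        (A.card : ℝ) := by exact_mod_cast h9
    linarith
  rw [h1, h2]
  have h4 := Finset.sum_le_sum fun o (_ : o ∈ (Finset.univ : Finset O)) => h3 o
  rw [← Finset.sum_mul] at h4
  have h5 : (∑ o, α b o (θ p0)) * ((A.card : ℝ) - 1) ≤ 1 * ((A.card : ℝ) - 1) :=
    mul_le_mul_of_nonneg_right (hCv.le_one b _) (by linarith)
  linarith

theorem good_leH [Fintype I] [Fintype E] [Fintype W] {Q : I → Type v} [∀ b, Group (Q b)]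
    {f : ∀ b, X → Q b} {Γ : LG W X} (hC : Cn Γ) (hR : P.Rdc Γ) (hE : ∃ p, P.Ess Γ p) {η : X → L}
    {θ : W → L} (hθ : ∀ p x q, (p, x, q) ∈ Γ.F → θ q = θ p * η x) {S : Finset L}
    (hS : ∀ p, θ p ∈ S) {O : Type} [Fintype O] {s : O → X → L → Bool} {w : P.Cor → L → ℝ}
    {α : I → O → L → ℝ} {lam : X → L → ℝ} (hCv : P.CvH f η S s w α lam) (b : I) :
    (P.good f Γ b : ℝ) ≤ ∑ p, P.Tb Γ η θ s α b p := by
  unfold good
  set D := (P.bg Γ b).comps.filter fun C => (P.bg Γ b).PotIn (f b) C with hD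
  have hdis : (D : Set (Finset W)).PairwiseDisjoint id := by
    intro C hC1 C' hC2 hne
    change Disjoint C C'
    rw [Finset.disjoint_left]
    intro p hp hp'
    apply hne
    rw [LG.eq_comp_of_mem (Finset.mem_filter.1 hC1).1 hp,
      LG.eq_comp_of_mem (Finset.mem_filter.1 hC2).1 hp']
  calc ((D.card : ℕ) : ℝ) = ∑ _C ∈ D, (1 : ℝ) := by simp
    _ ≤ ∑ C ∈ D, ∑ p ∈ C, P.Tb Γ η θ s α b p := Finset.sum_le_sum fun C hC' =>
        P.one_le_tb hC hR hE hθ hS hCv (Finset.mem_filter.1 hC').1 (Finset.mem_filter.1 hC').2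
    _ = ∑ p ∈ D.biUnion id, P.Tb Γ η θ s α b p := (Finset.sum_biUnion hdis).symm
    _ ≤ ∑ p, P.Tb Γ η θ s α b p :=
        Finset.sum_le_sum_of_subset_of_nonneg (Finset.subset_univ _) fun p _ _ =>
          P.tb_nonneg hCv.nonneg hCv.le_one b p

theorem locH [Fintype I] [Fintype E] {Q : I → Type v} [∀ b, Group (Q b)] {f : ∀ b, X → Q b}
    {O : Type} [Fintype O] {s : O → X → L → Bool} {w : P.Cor → L → ℝ} {α : I → O → L → ℝ}
    {lam : X → L → ℝ} {η : X → L} {S : Finset L} (hCv : P.CvH f η S s w α lam) {Γ : LG W X}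
    {θ : W → L} (hθ : ∀ p x q, (p, x, q) ∈ Γ.F → θ q = θ p * η x) (hS : ∀ p, θ p ∈ S)
    (hC : Cn Γ) (hR : P.Rdc Γ) (hE : ∃ p, P.Ess Γ p) (p : W) :
    (∑ b, P.Tb Γ η θ s α b p) + 1 + ∑ κ ∈ P.cor Γ p, w κ (θ p) ≤
      Fintype.card I + ∑ ε ∈ P.endK (P.cor Γ p), sgn ε * lam ε.1 (hl η ε (θ p)) := by
  by_cases hp : P.Ess Γ p
  · have h1 := hCv.curv (θ p) (hS p) (P.cor Γ p) (P.cor_two hR hp) (fun κ hκ =>
      P.at_fit hθ hS (Finset.mem_filter.1 hκ).2)
    have h2 : (∑ b, P.Tb Γ η θ s α b p) = (Fintype.card I : ℝ) - ∑ b, ∑ o,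
        if P.UpH η (P.cor Γ p) b (s o) (θ p) then α b o (θ p) else 0 := by
      unfold Tb
      rw [Finset.sum_congr rfl (g := fun b => 1 - ∑ o,
        if P.UpH η (P.cor Γ p) b (s o) (θ p) then α b o (θ p) else 0)
        (fun b _ => if_pos (Or.inr hp)), Finset.sum_sub_distrib]
      simp
    rw [h2]
    linarith
  · have h0 : P.cor Γ p = ∅ := P.cor_empty hp
    have h0' : P.endK (P.cor Γ p) = ∅ := by
      rw [h0]
      rfl
    have h2 : (∑ b, P.Tb Γ η θ s α b p) = ∑ b, if b ∈ P.Jp Γ p then (0 : ℝ) else 1 := by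
      refine Finset.sum_congr rfl fun b _ => ?_
      unfold Tb
      by_cases h : b ∈ P.Jp Γ p
      · rw [if_pos h, if_neg]
        rintro (h' | h')
        · exact h' h
        · exact hp h'
      · rw [if_neg h, if_pos (Or.inl h), Finset.sum_eq_zero, sub_zero]
        intro o _
        rw [if_neg]
        rintro ⟨ε, hε, -⟩
        rw [h0'] at hε
        exact absurd hε (Finset.notMem_empty _)
    have h3 : (∑ b, if b ∈ P.Jp Γ p then (0 : ℝ) else 1) =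
        (Fintype.card I : ℝ) - ((P.Jp Γ p).card : ℝ) := by
      have h4 : (∑ b, if b ∈ P.Jp Γ p then (0 : ℝ) else 1) =
          ∑ b, ((1 : ℝ) - if b ∈ P.Jp Γ p then (1 : ℝ) else 0) := by
        refine Finset.sum_congr rfl fun b _ => ?_
        split_ifs <;> norm_num
      rw [h4, Finset.sum_sub_distrib]
      simp
    have h5 : 1 ≤ (P.Jp Γ p).card := (P.jp_nonempty hC hE p).card_pos
    have h6 : (1 : ℝ) ≤ ((P.Jp Γ p).card : ℝ) := by exact_mod_cast h5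
    rw [h2, h3, h0', h0, Finset.sum_empty, Finset.sum_empty]
    linarith

theorem not_essH [Fintype I] [Fintype E] [Fintype W] [Nonempty W] {Q : I → Type v}
    [∀ b, Group (Q b)] (hQ : ∀ b, LocallyIndicable (Q b)) {f : ∀ b, X → Q b} {O : Type} [Fintype O]
    {s : O → X → L → Bool} {w : P.Cor → L → ℝ} {α : I → O → L → ℝ} {lam : X → L → ℝ}
    {η : X → L} {S : Finset L} (hCv : P.CvH f η S s w α lam) {Γ : LG W X} {θ : W → L}
    (hθ : ∀ p x q, (p, x, q) ∈ Γ.F → θ q = θ p * η x) (hS : ∀ p, θ p ∈ S) (hC : Cn Γ)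
    (hA : P.Acyc (P.inn f) Γ) (hR : P.Rdc Γ) : ¬ ∃ p, P.Ess Γ p := by
  intro hE
  have h5 : ((∑ b, P.good f Γ b : ℕ) : ℝ) ≤ ∑ p : W, ∑ b, P.Tb Γ η θ s α b p := by
    rw [Nat.cast_sum, Finset.sum_comm]
    exact Finset.sum_le_sum fun b _ => P.good_leH hC hR hE hθ hS hCv b
  have h6 := Finset.sum_le_sum fun p (_ : p ∈ (Finset.univ : Finset W)) =>
    P.locH hCv hθ hS hC hR hE p
  rw [Finset.sum_add_distrib, Finset.sum_add_distrib, Finset.sum_add_distrib, Finset.sum_const,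
    Finset.sum_const, P.lam_sum Γ hθ lam, nsmul_eq_mul, nsmul_eq_mul, Finset.card_univ, mul_one,
    add_zero] at h6
  have h7 : ((P.sq Γ).card : ℝ) ≤ ∑ p, ∑ κ ∈ P.cor Γ p, w κ (θ p) :=
    P.card_sq_leH Γ hθ hS w hCv.wt
  have h8 : (Fintype.card I : ℝ) * (Fintype.card W : ℝ) ≤
      (Module.finrank ℚ (Γ.Zc (P.inn f)) : ℝ) + ((∑ b, P.good f Γ b : ℕ) : ℝ) := by
    exact_mod_cast P.card_mul_le hQ f Γ
  have h9 : (Module.finrank ℚ (Γ.Zc (P.inn f)) : ℝ) + 1 ≤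
      (Fintype.card W : ℝ) + ((P.sq Γ).card : ℝ) := by
    exact_mod_cast P.finrank_zc hA
  have h10 : (Fintype.card W : ℝ) * (Fintype.card I : ℝ) =
      (Fintype.card I : ℝ) * (Fintype.card W : ℝ) := mul_comm _ _
  linarith

end OW

end Pool.Agent.InjLI
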