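import Pool.Agent.Lib.HgtLI.Defs
import Pool.Agent.Lib.InjLI.Ker

/-!
# ResH : the curvature condition with heights for finite subsystems

(helper62, problem MP_cf50d6_gt; as `Lib/InjLI/ResA.lean` by helper18)
-/

set_option autoImplicit false

set_option linter.unusedSectionVars false

open scoped Classical

namespace Pool.Agent.InjLI

open Pool.Agent.LIA

universe u v w'

/-- an up step of the block `b` with a letter of a word in `F`, between heights in `S` -/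
def UStI {I E : Type} {H : I → Type u} [∀ b, Group (H b)] {m : E → ℕ}
    (a : ∀ e, Fin (m e + 1) → (Σ b, H b) × Bool) {L : Type w'} [Group L] (χ : ∀ b, H b →* L)
    (F : Finset E) (S : Finset L) (b : I) (s : (Σ b, H b) → L → Bool) (u v : L × H b) : Prop :=
  u.1 ∈ S ∧ v.1 ∈ S ∧ ∃ e ∈ F, ∃ c x, (a e c).1 = ⟨b, x⟩ ∧
    ((s ⟨b, x⟩ u.1 = true ∧ v = (u.1 * χ b x, u.2 * x)) ∨
      (s ⟨b, x⟩ v.1 = false ∧ u = (v.1 * χ b x, v.2 * x)))

/-- the curvature condition for the words in `F` and the heights in `S` -/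
structure CrH {I E : Type} {H : I → Type u} [∀ b, Group (H b)] {m : E → ℕ}
    (a : ∀ e, Fin (m e + 1) → (Σ b, H b) × Bool)
    (alt : ∀ e c, (a e c).1.1 ≠ (a e (c + 1)).1.1) {L : Type w'} [Group L] (χ : ∀ b, H b →* L)
    (F : Finset E) (S : Finset L) {O : Type} [Fintype O] (s : O → (Σ b, H b) → L → Bool)
    (w : (Σ e : E, Fin (m e + 1)) → L → ℝ) (α : I → O → L → ℝ) (lam : (Σ b, H b) → L → ℝ) :
    Prop where
  nonneg : ∀ b o g, 0 ≤ α b o g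
  le_one : ∀ b g, ∑ o, α b o g ≤ 1
  inv : ∀ b o g x, α b o (g * χ b x) = α b o g
  pos : ∀ b o (u : L × H b), α b o u.1 ≠ 0 →
    ¬ Relation.TransGen (UStI a χ F S b (s o)) u u
  wt : ∀ e ∈ F, ∀ h, (OW.mk Sigma.fst m a alt).Ht (fun x => χ x.1 x.2) e h →
    (∀ c, h c ∈ S) → 1 ≤ ∑ c, w ⟨e, c⟩ (h c)
  curv : ∀ g ∈ S, ∀ K : Finset (Σ e : E, Fin (m e + 1)), (OW.mk Sigma.fst m a alt).TwoC K →
    (∀ κ ∈ K, κ.1 ∈ F ∧ (OW.mk Sigma.fst m a alt).Fit (fun x => χ x.1 x.2) S κ g) →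
    ∑ κ ∈ K, w κ g + 1 ≤
      (∑ b ∈ (OW.mk Sigma.fst m a alt).Bk K, ∑ o,
        if (OW.mk Sigma.fst m a alt).UpH (fun x => χ x.1 x.2) K b (s o) g then α b o g else 0) +
      ∑ ε ∈ (OW.mk Sigma.fst m a alt).endK K,
        sgn ε * lam ε.1 (hl (fun x => χ x.1 x.2) ε g)

section aux

variable {I E : Type} {H : I → Type u} [∀ b, Group (H b)] {m : E → ℕ}
    {a : ∀ e, Fin (m e + 1) → (Σ b, H b) × Bool}
    (alt : ∀ e c, (a e c).1.1 ≠ (a e (c + 1)).1.1) (I₀ : Finset I) (E₀ : Finset E)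
    (h : ∀ e ∈ E₀, ∀ c, (a e c).1.1 ∈ I₀)

/-- the corners of the subsystem as corners of the system -/
private def io : (OW.mk Sigma.fst (fun e : ↥E₀ => m e.1) (ra a I₀ E₀ h) (ra_alt alt I₀ E₀ h)).Cor →
    (OW.mk Sigma.fst m a alt).Cor := fun κ => ⟨κ.1.1, κ.2⟩

private theorem io_inj : Function.Injective (io alt I₀ E₀ h) := by
  rintro ⟨⟨e, he⟩, c⟩ ⟨⟨e', he'⟩, c'⟩ hh
  have h1 : e = e' := congrArg Sigma.fst hh
  subst h1
  have h2 : c = c' := eq_of_heq (Sigma.mk.inj hh).2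
  subst h2
  rfl

private theorem io_Cr (κ : (OW.mk Sigma.fst (fun e : ↥E₀ => m e.1) (ra a I₀ E₀ h)
      (ra_alt alt I₀ E₀ h)).Cor) (U : Finset I) :
    (OW.mk Sigma.fst m a alt).Cr (io alt I₀ E₀ h κ) U ↔
      (OW.mk Sigma.fst (fun e : ↥E₀ => m e.1) (ra a I₀ E₀ h)
        (ra_alt alt I₀ E₀ h)).Cr κ (Finset.univ.filter fun b : ↥I₀ => b.1 ∈ U) := by
  unfold OW.Cr
  rw [Finset.mem_filter, Finset.mem_filter]
  simp only [Finset.mem_univ, true_and]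
  rfl

/-- the blocks -/
private theorem mem_Bk (K : Finset (OW.mk Sigma.fst (fun e : ↥E₀ => m e.1) (ra a I₀ E₀ h)
      (ra_alt alt I₀ E₀ h)).Cor) (b : I) :
    b ∈ (OW.mk Sigma.fst m a alt).Bk (K.map ⟨io alt I₀ E₀ h, io_inj alt I₀ E₀ h⟩) ↔
      ∃ hb : b ∈ I₀, (⟨b, hb⟩ : ↥I₀) ∈ (OW.mk Sigma.fst (fun e : ↥E₀ => m e.1) (ra a I₀ E₀ h)
        (ra_alt alt I₀ E₀ h)).Bl K := by
  unfold OW.Bk OW.Bl OW.Iv
  simp only [Finset.mem_union, Finset.mem_image, Finset.mem_map, Finset.mem_filter,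
    Finset.mem_univ, true_and, Function.Embedding.coeFn_mk, exists_exists_and_eq_and]
  constructor
  · rintro (⟨κ, hκ, rfl⟩ | ⟨κ, hκ, rfl⟩)
    · exact ⟨h κ.1.1 κ.1.2 κ.2, κ, hκ, Or.inl rfl⟩
    · exact ⟨h κ.1.1 κ.1.2 (κ.2 - 1), κ, hκ, Or.inr rfl⟩
  · rintro ⟨hb, κ, hκ, h1 | h1⟩
    · exact Or.inl ⟨κ, hκ, congrArg Subtype.val h1⟩
    · exact Or.inr ⟨κ, hκ, congrArg Subtype.val h1⟩

private theorem twoC_map {K₀ : Finset (OW.mk Sigma.fst (fun e : ↥E₀ => m e.1) (ra a I₀ E₀ h)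
      (ra_alt alt I₀ E₀ h)).Cor} (hK₀ : (OW.mk Sigma.fst (fun e : ↥E₀ => m e.1) (ra a I₀ E₀ h)
      (ra_alt alt I₀ E₀ h)).TwoConn K₀) :
    (OW.mk Sigma.fst m a alt).TwoC (K₀.map ⟨io alt I₀ E₀ h, io_inj alt I₀ E₀ h⟩) := by
  refine ⟨hK₀.1.map, fun U hU hUB => ?_⟩
  have e1 : ((K₀.map ⟨io alt I₀ E₀ h, io_inj alt I₀ E₀ h⟩).filter
      fun κ => (OW.mk Sigma.fst m a alt).Cr κ U) =
      (K₀.filter fun κ => (OW.mk Sigma.fst (fun e : ↥E₀ => m e.1) (ra a I₀ E₀ h)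
        (ra_alt alt I₀ E₀ h)).Cr κ (Finset.univ.filter fun b : ↥I₀ => b.1 ∈ U)).map
        ⟨io alt I₀ E₀ h, io_inj alt I₀ E₀ h⟩ := by
    rw [Finset.filter_map]
    congr 1
    apply Finset.filter_congr
    intro κ _
    exact io_Cr alt I₀ E₀ h κ U
  rw [e1, Finset.card_map]
  refine hK₀.2 _ ?_ ?_
  · obtain ⟨b, hb⟩ := hU
    obtain ⟨hb', -⟩ := (mem_Bk alt I₀ E₀ h K₀ b).1 (hUB.1 hb)
    exact ⟨⟨b, hb'⟩, Finset.mem_filter.2 ⟨Finset.mem_univ _, hb⟩⟩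
  · rw [Finset.ssubset_iff_subset_ne]
    constructor
    · intro b hb
      obtain ⟨-, hb1⟩ := Finset.mem_filter.1 hb
      obtain ⟨_, hb2⟩ := (mem_Bk alt I₀ E₀ h K₀ b.1).1 (hUB.1 hb1)
      exact hb2
    · intro hne
      apply hUB.2
      intro b hb
      obtain ⟨hb', hb2⟩ := (mem_Bk alt I₀ E₀ h K₀ b).1 hb
      rw [← hne] at hb2
      exact (Finset.mem_filter.1 hb2).2

/-- the letters of the subsystem as letters of the system -/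
private def jo (ε : (Σ b : ↥I₀, H b.1) × Bool) : (Σ b, H b) × Bool := (⟨ε.1.1.1, ε.1.2⟩, ε.2)

private theorem jo_inj : Function.Injective (jo (H := H) I₀) := by
  rintro ⟨⟨⟨b, hb⟩, x⟩, t⟩ ⟨⟨⟨b', hb'⟩, x'⟩, t'⟩ hh
  have h0 : t = t' := congrArg Prod.snd hh
  have h1 : (⟨b, x⟩ : Σ b, H b) = ⟨b', x'⟩ := congrArg Prod.fst hh
  subst h0
  have h2 : b = b' := congrArg Sigma.fst h1
  subst h2
  have h3 : x = x' := eq_of_heq (Sigma.mk.inj h1).2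
  subst h3
  rfl

private theorem endK_map (K : Finset (OW.mk Sigma.fst (fun e : ↥E₀ => m e.1) (ra a I₀ E₀ h)
      (ra_alt alt I₀ E₀ h)).Cor) :
    (OW.mk Sigma.fst m a alt).endK (K.map ⟨io alt I₀ E₀ h, io_inj alt I₀ E₀ h⟩) =
      ((OW.mk Sigma.fst (fun e : ↥E₀ => m e.1) (ra a I₀ E₀ h)
        (ra_alt alt I₀ E₀ h)).endK K).map ⟨jo I₀, jo_inj I₀⟩ := by
  ext ε
  unfold OW.endK OW.ends
  simp only [Finset.mem_biUnion, Finset.mem_map, Function.Embedding.coeFn_mk,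
    Finset.mem_insert, Finset.mem_singleton, exists_exists_and_eq_and]
  constructor
  · rintro ⟨κ, hκ, rfl | rfl⟩
    · exact ⟨_, ⟨κ, hκ, Or.inl rfl⟩, rfl⟩
    · exact ⟨_, ⟨κ, hκ, Or.inr rfl⟩, rfl⟩
  · rintro ⟨_, ⟨κ, hκ, rfl | rfl⟩, rfl⟩
    · exact ⟨κ, hκ, Or.inl rfl⟩
    · exact ⟨κ, hκ, Or.inr rfl⟩

private theorem upH_map {L : Type w'} [Group L] (χ : ∀ b, H b →* L)
    (K : Finset (OW.mk Sigma.fst (fun e : ↥E₀ => m e.1) (ra a I₀ E₀ h)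
      (ra_alt alt I₀ E₀ h)).Cor) (b : ↥I₀) (s : (Σ b, H b) → L → Bool) (g : L) :
    (OW.mk Sigma.fst m a alt).UpH (fun x => χ x.1 x.2)
        (K.map ⟨io alt I₀ E₀ h, io_inj alt I₀ E₀ h⟩) b.1 s g ↔
      (OW.mk Sigma.fst (fun e : ↥E₀ => m e.1) (ra a I₀ E₀ h)
        (ra_alt alt I₀ E₀ h)).UpH (fun x => χ x.1.1 x.2) K b
          (fun x g => s ⟨x.1.1, x.2⟩ g) g := by
  unfold OW.UpH
  rw [endK_map]
  simp only [Finset.mem_map, Function.Embedding.coeFn_mk, exists_exists_and_eq_and]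
  refine exists_congr fun ε => and_congr_right fun _ => ?_
  rw [Subtype.ext_iff]
  rfl

end aux

theorem cvH_res {I E : Type} {H : I → Type u} [∀ b, Group (H b)] {m : E → ℕ}
    {a : ∀ e, Fin (m e + 1) → (Σ b, H b) × Bool}
    (alt : ∀ e c, (a e c).1.1 ≠ (a e (c + 1)).1.1) {L : Type w'} [Group L] (χ : ∀ b, H b →* L)
    (I₀ : Finset I) (E₀ : Finset E) (S : Finset L) {O : Type} [Fintype O]
    {s : O → (Σ b, H b) → L → Bool} {w : (Σ e : E, Fin (m e + 1)) → L → ℝ} {α : I → O → L → ℝ}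
    {lam : (Σ b, H b) → L → ℝ} (hCv : CrH a alt χ E₀ S s w α lam)
    (h : ∀ e ∈ E₀, ∀ c, (a e c).1.1 ∈ I₀) :
    (OW.mk Sigma.fst (fun e : ↥E₀ => m e.1) (ra a I₀ E₀ h) (ra_alt alt I₀ E₀ h)).CvH fv
      (fun x => χ x.1.1 x.2) S (fun o x g => s o ⟨x.1.1, x.2⟩ g) (fun κ g => w ⟨κ.1.1, κ.2⟩ g)
      (fun b o g => α b.1 o g) fun x g => lam ⟨x.1.1, x.2⟩ g := by
  refine ⟨fun b o g => hCv.nonneg b.1 o g, fun b g => hCv.le_one b.1 g, ?_, ?_, ?_, ?_⟩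
  · rintro b o g x rfl
    exact hCv.inv _ o g x.2
  · intro b o u hu h1
    refine hCv.pos b.1 o u hu (Relation.TransGen.mono ?_ u u h1)
    rintro p q ⟨hp, hq, e, c, rfl, h2⟩
    refine ⟨hp, hq, e.1, e.2, c, (a e.1 c).1.2, rfl, ?_⟩
    have h3 : fv (H := fun b : ↥I₀ => H b.1) (ra a I₀ E₀ h e c).1.1 (ra a I₀ E₀ h e c).1 =
        (ra a I₀ E₀ h e c).1.2 := fv_self _ _
    rcases h2 with ⟨h4, h5⟩ | ⟨h4, h5⟩
    · refine Or.inl ⟨h4, ?_⟩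
      rw [h5]
      refine congrArg₂ Prod.mk rfl ?_
      exact congrArg (fun y => p.2 * y) h3
    · refine Or.inr ⟨h4, ?_⟩
      rw [h5]
      refine congrArg₂ Prod.mk rfl ?_
      exact congrArg (fun y => q.2 * y) h3
  · intro e hh h1 h2
    exact hCv.wt e.1 e.2 hh h1 h2
  · intro g hg K₀ hK₀ hfit
    have h5 := hCv.curv g hg _ (twoC_map alt I₀ E₀ h hK₀) (by
      intro κ hκ
      obtain ⟨κ₀, hκ₀, rfl⟩ := Finset.mem_map.1 hκ
      exact ⟨κ₀.1.2, hfit κ₀ hκ₀⟩)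
    rw [Finset.sum_map, endK_map, Finset.sum_map] at h5
    refine h5.trans (add_le_add ?_ le_rfl)
    have h6 : (OW.mk Sigma.fst m a alt).Bk (K₀.map ⟨io alt I₀ E₀ h, io_inj alt I₀ E₀ h⟩) ⊆
        (Finset.univ : Finset ↥I₀).map (Function.Embedding.subtype _) := by
      intro b hb
      obtain ⟨hb', -⟩ := (mem_Bk alt I₀ E₀ h K₀ b).1 hb
      exact Finset.mem_map.2 ⟨⟨b, hb'⟩, Finset.mem_univ _, rfl⟩
    refine (Finset.sum_le_sum_of_subset_of_nonneg h6 fun b _ _ => ?_).trans ?_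
    · refine Finset.sum_nonneg fun o _ => ?_
      split_ifs
      · exact hCv.nonneg b o g
      · exact le_rfl
    · rw [Finset.sum_map]
      refine Finset.sum_le_sum fun b _ => Finset.sum_le_sum fun o _ => ?_
      have h7 := upH_map alt I₀ E₀ h χ K₀ b (s o) g
      by_cases h8 : (OW.mk Sigma.fst (fun e : ↥E₀ => m e.1) (ra a I₀ E₀ h)
        (ra_alt alt I₀ E₀ h)).UpH (fun x => χ x.1.1 x.2) K₀ b
          (fun x g => s o ⟨x.1.1, x.2⟩ g) g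
      · have h9 := h7.2 h8
        rw [if_pos h8]
        change (if (OW.mk Sigma.fst m a alt).UpH (fun x => χ x.1 x.2)
          (K₀.map ⟨io alt I₀ E₀ h, io_inj alt I₀ E₀ h⟩) b.1 (s o) g then α b.1 o g else 0) ≤ _
        rw [if_pos h9]
      · have h9 : ¬ (OW.mk Sigma.fst m a alt).UpH (fun x => χ x.1 x.2)
          (K₀.map ⟨io alt I₀ E₀ h, io_inj alt I₀ E₀ h⟩) b.1 (s o) g := fun hh => h8 (h7.1 hh)
        rw [if_neg h8]
        change (if (OW.mk Sigma.fst m a alt).UpH (fun x => χ x.1 x.2)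
          (K₀.map ⟨io alt I₀ E₀ h, io_inj alt I₀ E₀ h⟩) b.1 (s o) g then α b.1 o g else 0) ≤ _
        rw [if_neg h9]

end Pool.Agent.InjLI
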