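import Pool.Agent.Lib.HgtLI.Wh

/-!
# Top : the top vertex of a good component

(helper62, problem MP_cf50d6_gt; as `Lib/InjLI/Mx.lean` by helper18)
-/

set_option autoImplicit false

open scoped Classical

namespace Pool.Agent.InjLI

open Pool.Agent.LIA

universe u v

namespace OW

variable {X : Type u} {I E : Type} {W : Type*} (P : OW X I E) {L : Type*} [Group L]

theorem end_letter {K : Finset P.Cor} {ε : X × Bool} (h : ε ∈ P.endK K) :
    ∃ e c, (P.a e c).1 = ε.1 := by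
  obtain ⟨κ, -, h1⟩ := P.mem_endK.1 h
  rcases h1 with rfl | rfl
  · exact ⟨κ.1, κ.2, rfl⟩
  · exact ⟨κ.1, κ.2 - 1, rfl⟩

theorem iv_end [Fintype E] {Γ : LG W X} {p : W} {κ : P.Cor} {b : I} (h : P.At Γ p κ)
    (hb : P.Iv κ b) : ∃ ε ∈ P.endK (P.cor Γ p), P.cl ε.1 = b := by
  have h1 : κ ∈ P.cor Γ p := Finset.mem_filter.2 ⟨Finset.mem_univ _, h⟩
  rcases hb with hb | hb
  · exact ⟨_, P.mem_endK.2 ⟨κ, h1, Or.inl rfl⟩, hb⟩
  · exact ⟨_, P.mem_endK.2 ⟨κ, h1, Or.inr rfl⟩, hb⟩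

theorem end_ess [Fintype I] [Fintype E] {Γ : LG W X} {p : W} {ε : X × Bool}
    (h : ε ∈ P.endK (P.cor Γ p)) : P.Ess Γ p := by
  obtain ⟨κ, h1, -⟩ := P.mem_endK.1 h
  exact P.at_ess (Finset.mem_filter.1 h1).2

theorem exists_topH [Fintype I] [Fintype E] [Fintype W] {Q : I → Type v} [∀ b, Group (Q b)]
    {f : ∀ b, X → Q b} {Γ : LG W X} (hC : Cn Γ) (hR : P.Rdc Γ) (hE : ∃ p, P.Ess Γ p) {η : X → L}
    {θ : W → L} (hθ : ∀ p x q, (p, x, q) ∈ Γ.F → θ q = θ p * η x) {S : Finset L}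
    (hS : ∀ p, θ p ∈ S) {b : I} {s : X → L → Bool} {C : Finset W} (hCc : C ∈ (P.bg Γ b).comps)
    (hpot : (P.bg Γ b).PotIn (f b) C)
    (hP : ∀ u : L × Q b, (∃ p ∈ C, θ p = u.1) →
      ¬ Relation.TransGen (P.USt f η S b s) u u) :
    ∃ p ∈ C, (b ∉ P.Jp Γ p ∨ P.Ess Γ p) ∧ ¬ P.UpH η (P.cor Γ p) b s (θ p) := by
  by_cases hY : ∃ p ∈ C, ∃ ε ∈ P.endK (P.cor Γ p), P.cl ε.1 = b
  · obtain ⟨φ, hφ⟩ := hpot
    let Y : Set W := {p | p ∈ C ∧ ∃ ε ∈ P.endK (P.cor Γ p), P.cl ε.1 = b}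
    let r : Y → Y → Prop := fun u v =>
      Relation.TransGen (P.USt f η S b s) (θ v, φ v) (θ u, φ u)
    have : IsTrans Y r := ⟨fun u v w h1 h2 => Relation.TransGen.trans h2 h1⟩
    have : Std.Irrefl r := ⟨fun u h => hP (θ u, φ u) ⟨u, u.2.1, rfl⟩ h⟩
    have hwf : WellFounded r := Finite.wellFounded_of_trans_of_irrefl r
    obtain ⟨p0, hp0C, ε0, hε0, hb0⟩ := hY
    obtain ⟨⟨p, hp⟩, -, hmin⟩ := hwf.has_min Set.univ ⟨(⟨p0, hp0C, ε0, hε0, hb0⟩ : Y), trivial⟩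
    obtain ⟨hpC, ε1, hε1, hb1⟩ := id hp
    refine ⟨p, hpC, Or.inr (P.end_ess hε1), ?_⟩
    rintro ⟨ε, hε, hcl, hsg⟩
    obtain ⟨v, hst, hε'⟩ := P.end_step hε
    obtain ⟨e, c, hec⟩ := P.end_letter hε
    have hedge : v ∈ C ∧ P.USt f η S b s (θ p, φ p) (θ v, φ v) := by
      unfold LG.Step at hst
      unfold hl at hsg
      cases h2 : ε.2
      · rw [h2] at hst hsg
        simp only [Bool.false_eq_true, if_false] at hst hsg
        have h3 : (v, ε.1, p) ∈ (P.bg Γ b).F := P.mem_bg.2 ⟨hst, hcl⟩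
        have hv : v ∈ C := (LG.mem_of_edge hCc h3).2 hpC
        have h4 := hθ _ _ _ hst
        rw [h4, mul_inv_cancel_right] at hsg
        refine ⟨hv, hS _, hS _, e, c, ?_, Or.inr ⟨?_, ?_⟩⟩
        · rw [hec]
          exact hcl
        · rw [hec]
          exact hsg
        · rw [hec, h4, hφ _ _ _ h3 hv]
      · rw [h2] at hst hsg
        simp only [if_true] at hst hsg
        have h3 : (p, ε.1, v) ∈ (P.bg Γ b).F := P.mem_bg.2 ⟨hst, hcl⟩
        have hv : v ∈ C := (LG.mem_of_edge hCc h3).1 hpC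
        have h4 := hθ _ _ _ hst
        refine ⟨hv, hS _, hS _, e, c, ?_, Or.inl ⟨?_, ?_⟩⟩
        · rw [hec]
          exact hcl
        · rw [hec]
          exact hsg
        · rw [hec, h4, hφ _ _ _ h3 hpC]
    exact hmin (⟨v, hedge.1, (ε.1, !ε.2), hε', hcl⟩ : Y) trivial
      (Relation.TransGen.single hedge.2)
  · push Not at hY
    by_cases hb : ∃ p ∈ C, b ∉ P.Jp Γ p
    · obtain ⟨p, hp, hpb⟩ := hb
      refine ⟨p, hp, Or.inl hpb, ?_⟩
      rintro ⟨ε, hε, hcl, -⟩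
      exact hY p hp ε hε hcl
    · push Not at hb
      exfalso
      obtain ⟨p0, hp0⟩ := LG.nonempty_of_mem_comps hCc
      have hne : ∀ p ∈ C, ¬ P.Ess Γ p := by
        intro p hp he
        obtain ⟨κ, hκ, hiv⟩ := P.exists_iv hR he (hb p hp)
        obtain ⟨ε, hε, hcl⟩ := P.iv_end hκ hiv
        exact hY p hp ε hε hcl
      have hall : ∀ p ∈ C, ∀ c ∈ P.Jp Γ p, c = b := by
        intro p hp c hc
        have h1 := hne p hp
        unfold Ess at h1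
        push Not at h1
        exact Finset.card_le_one.1 (Nat.lt_succ_iff.1 h1) c hc b (hb p hp)
      have hcl : ∀ u x v, (u, x, v) ∈ Γ.F → (u ∈ (C : Set W) ↔ v ∈ (C : Set W)) := by
        intro u x v h
        have hu : P.cl x ∈ P.Jp Γ u := P.mem_jp.2 ⟨u, x, v, h, rfl, Or.inl rfl⟩
        have hv : P.cl x ∈ P.Jp Γ v := P.mem_jp.2 ⟨u, x, v, h, rfl, Or.inr rfl⟩
        constructor
        · intro huC
          have h1 := hall u huC _ hu
          exact (LG.mem_of_edge hCc (P.mem_bg.2 ⟨h, h1⟩)).1 huC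
        · intro hvC
          have h1 := hall v hvC _ hv
          exact (LG.mem_of_edge hCc (P.mem_bg.2 ⟨h, h1⟩)).2 hvC
      obtain ⟨pe, hpe⟩ := hE
      exact hne pe (hC (C : Set W) ⟨p0, hp0⟩ hcl pe) hpe

end OW

end Pool.Agent.InjLI
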