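import Pool.Agent.Lib.HgtLI.Defs
import Pool.Agent.Lib.InjLI.JpB
import Pool.Agent.Lib.InjLI.Par

/-!
# Wh : heights of polygons, sum of the weights, sum of the transfers

(helper62, problem MP_cf50d6_gt)
-/

set_option autoImplicit false

open scoped Classical

namespace Pool.Agent.InjLI

open Pool.Agent.LIA

universe u v

namespace OW

variable {X : Type u} {I E : Type} {W : Type*} (P : OW X I E) {L : Type*} [Group L]

theorem ht_poly {Γ : LG W X} {η : X → L} {θ : W → L}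
    (hθ : ∀ p x q, (p, x, q) ∈ Γ.F → θ q = θ p * η x) {e : E} {q : Fin (P.m e + 1) → W}
    (h : P.Poly Γ e q) : P.Ht η e fun c => θ (q c) := by
  intro c
  have h1 := h c
  unfold LG.Step at h1
  unfold sg
  split_ifs at h1 with h2
  · rw [if_pos h2]
    exact hθ _ _ _ h1
  · rw [if_neg h2]
    change θ (q (c + 1)) = θ (q c) * (η (P.a e c).1)⁻¹
    rw [hθ _ _ _ h1, mul_inv_cancel_right]

theorem at_fit {Γ : LG W X} {η : X → L} {θ : W → L}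
    (hθ : ∀ p x q, (p, x, q) ∈ Γ.F → θ q = θ p * η x) {S : Finset L} (hS : ∀ p, θ p ∈ S) {p : W}
    {κ : P.Cor} (h : P.At Γ p κ) : P.Fit η S κ (θ p) := by
  obtain ⟨q, hq, rfl⟩ := h
  exact ⟨fun c => θ (q c), P.ht_poly hθ hq, rfl, fun c => hS _⟩

theorem card_sq_leH [Fintype E] [Fintype W] (Γ : LG W X) {η : X → L} {θ : W → L}
    (hθ : ∀ p x q, (p, x, q) ∈ Γ.F → θ q = θ p * η x) {S : Finset L} (hS : ∀ p, θ p ∈ S)
    (w : P.Cor → L → ℝ)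
    (hw : ∀ e h, P.Ht η e h → (∀ c, h c ∈ S) → 1 ≤ ∑ c, w ⟨e, c⟩ (h c)) :
    ((P.sq Γ).card : ℝ) ≤ ∑ p, ∑ κ ∈ P.cor Γ p, w κ (θ p) := by
  have key : ∑ σ ∈ P.sq Γ, ∑ c, w ⟨σ.1, c⟩ (θ (σ.2 c)) = ∑ p, ∑ κ ∈ P.cor Γ p, w κ (θ p) := by
    rw [Finset.sum_sigma', Finset.sum_sigma']
    refine Finset.sum_bij
      (fun (x : Σ _ : (Σ e : E, Fin (P.m e + 1) → W), Fin (P.m _ + 1)) _ =>
        (⟨x.1.2 x.2, ⟨x.1.1, x.2⟩⟩ : Σ _ : W, P.Cor)) ?_ ?_ ?_ ?_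
    · rintro ⟨⟨e, q⟩, c⟩ hx
      have h1 : P.Poly Γ e q := (Finset.mem_filter.1 (Finset.mem_sigma.1 hx).1).2
      exact Finset.mem_sigma.2 ⟨Finset.mem_univ _,
        Finset.mem_filter.2 ⟨Finset.mem_univ _, q, h1, rfl⟩⟩
    · rintro ⟨⟨e, q⟩, c⟩ hx ⟨⟨e', q'⟩, c'⟩ hx' heq
      have h1 : P.Poly Γ e q := (Finset.mem_filter.1 (Finset.mem_sigma.1 hx).1).2
      have h1' : P.Poly Γ e' q' := (Finset.mem_filter.1 (Finset.mem_sigma.1 hx').1).2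
      simp only [Sigma.mk.injEq, heq_eq_eq] at heq
      obtain ⟨h2, h3, h4⟩ := heq
      subst h3
      have h5 := eq_of_heq h4
      subst h5
      have h6 := P.poly_unique h1 h1' h2
      subst h6
      rfl
    · rintro ⟨p, ⟨e, c⟩⟩ hy
      obtain ⟨q, h1, h2⟩ := (Finset.mem_filter.1 (Finset.mem_sigma.1 hy).2).2
      refine ⟨⟨⟨e, q⟩, c⟩, Finset.mem_sigma.2 ⟨Finset.mem_filter.2 ⟨Finset.mem_univ _, h1⟩,
        Finset.mem_univ _⟩, ?_⟩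
      exact Sigma.ext h2 (heq_of_eq rfl)
    · rintro ⟨⟨e, q⟩, c⟩ _
      rfl
  rw [← key]
  calc ((P.sq Γ).card : ℝ) = ∑ _σ ∈ P.sq Γ, (1 : ℝ) := by simp
    _ ≤ _ := Finset.sum_le_sum fun σ hσ => by
      have h1 : P.Poly Γ σ.1 σ.2 := (Finset.mem_filter.1 hσ).2
      exact hw σ.1 (fun c => θ (σ.2 c)) (P.ht_poly hθ h1) fun c => hS _

theorem mem_endK {K : Finset P.Cor} {ε : X × Bool} :
    ε ∈ P.endK K ↔ ∃ κ ∈ K, ε = P.nxt κ ∨ ε = ((P.prv κ).1, !(P.prv κ).2) := by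
  unfold endK ends
  simp only [Finset.mem_biUnion, Finset.mem_insert, Finset.mem_singleton]

/-- the other end of the edge -/
theorem end_step [Fintype E] {Γ : LG W X} {p : W} {ε : X × Bool}
    (h : ε ∈ P.endK (P.cor Γ p)) :
    ∃ v, Γ.Step p ε v ∧ (ε.1, !ε.2) ∈ P.endK (P.cor Γ v) := by
  obtain ⟨κ, hκ, h1⟩ := P.mem_endK.1 h
  obtain ⟨q, hq, rfl⟩ : P.At Γ p κ := (Finset.mem_filter.1 hκ).2
  rcases h1 with rfl | rfl
  · refine ⟨q (κ.2 + 1), hq κ.2, P.mem_endK.2 ⟨⟨κ.1, κ.2 + 1⟩, ?_, Or.inr ?_⟩⟩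
    · exact Finset.mem_filter.2 ⟨Finset.mem_univ _, q, hq, rfl⟩
    · unfold nxt prv
      simp only [add_sub_cancel_right]
  · refine ⟨q (κ.2 - 1), ?_, P.mem_endK.2 ⟨⟨κ.1, κ.2 - 1⟩, ?_, Or.inl ?_⟩⟩
    · have h1 := hq (κ.2 - 1)
      rw [sub_add_cancel] at h1
      unfold LG.Step at h1 ⊢
      unfold prv
      cases hs : (P.a κ.1 (κ.2 - 1)).2
      · rw [hs] at h1
        simpa using h1
      · rw [hs] at h1
        simpa using h1
    · exact Finset.mem_filter.2 ⟨Finset.mem_univ _, q, hq, rfl⟩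
    · unfold nxt prv
      simp only [Bool.not_not]

theorem step_symm' {Γ : LG W X} {p v : W} {ε : X × Bool} (h : Γ.Step p ε v) :
    Γ.Step v (ε.1, !ε.2) p := by
  unfold LG.Step at h ⊢
  cases hs : ε.2
  · rw [hs] at h
    simpa using h
  · rw [hs] at h
    simpa using h

theorem hl_step {Γ : LG W X} {η : X → L} {θ : W → L}
    (hθ : ∀ p x q, (p, x, q) ∈ Γ.F → θ q = θ p * η x) {p v : W} {ε : X × Bool}
    (h : Γ.Step p ε v) : hl η (ε.1, !ε.2) (θ v) = hl η ε (θ p) := by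
  unfold LG.Step at h
  unfold hl
  cases hs : ε.2
  · rw [hs] at h
    have h1 := hθ _ _ _ (by simpa using h)
    simp [h1]
  · rw [hs] at h
    have h1 := hθ _ _ _ (by simpa using h)
    simp [h1]

theorem sgn_not (ε : X × Bool) : sgn (ε.1, !ε.2) = - sgn ε := by
  unfold sgn
  cases ε.2 <;> simp

/-- the transfers cancel -/
theorem lam_sum [Fintype E] [Fintype W] (Γ : LG W X) {η : X → L} {θ : W → L}
    (hθ : ∀ p x q, (p, x, q) ∈ Γ.F → θ q = θ p * η x) (lam : X → L → ℝ) :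
    ∑ p, ∑ ε ∈ P.endK (P.cor Γ p), sgn ε * lam ε.1 (hl η ε (θ p)) = 0 := by
  rw [Finset.sum_sigma']
  have hex : ∀ a ∈ (Finset.univ.sigma fun p => P.endK (P.cor Γ p) : Finset (Σ _ : W, X × Bool)),
      ∃ v, Γ.Step a.1 a.2 v ∧ (a.2.1, !a.2.2) ∈ P.endK (P.cor Γ v) := fun a ha =>
    P.end_step (Finset.mem_sigma.1 ha).2
  choose g hg1 hg2 using hex
  refine Finset.sum_involution (fun a ha => ⟨g a ha, (a.2.1, !a.2.2)⟩) ?_ ?_ ?_ ?_
  · intro a ha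
    change sgn a.2 * lam a.2.1 (hl η a.2 (θ a.1)) +
      sgn (a.2.1, !a.2.2) * lam a.2.1 (hl η (a.2.1, !a.2.2) (θ (g a ha))) = 0
    rw [sgn_not, hl_step hθ (hg1 a ha)]
    ring
  · intro a ha _ h
    have h1 := congrArg (fun y : (Σ _ : W, X × Bool) => y.2.2) h
    change (!a.2.2) = a.2.2 at h1
    cases h2 : a.2.2 <;> rw [h2] at h1 <;> cases h1
  · intro a ha
    exact Finset.mem_sigma.2 ⟨Finset.mem_univ _, hg2 a ha⟩
  · intro a ha
    have h1 := hg1 ⟨g a ha, (a.2.1, !a.2.2)⟩ (Finset.mem_sigma.2 ⟨Finset.mem_univ _, hg2 a ha⟩)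
    have h2 := step_symm' (hg1 a ha)
    have h3 := LG.step_det h1 h2
    refine Sigma.ext h3 (heq_of_eq ?_)
    change (a.2.1, !(!a.2.2)) = a.2
    rw [Bool.not_not]

end OW

end Pool.Agent.InjLI
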